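import Pool.Agent.H48.ER.Targets

/-!
# Module CNH: no odd holes after the contraction of an even pair
-/

set_option autoImplicit false

open Pool.Agent.H48.ER

namespace Pool.Agent.H2.ER

theorem cnh_nbr {V : Type} {G : SimpleGraph V} {n : ℕ} {x y : V} {R : Set V}
    (h : IP G n x y R) (hn : 1 ≤ n) {w : V} (hw : w ∈ R) : ∃ w', G.Adj w w' := by
  obtain ⟨g, _, _, _, ga, hR⟩ := h
  rw [hR] at hw
  obtain ⟨i, hi, rfl⟩ := hw
  by_cases h1 : i < n
  · exact ⟨g (i + 1), (ga i (i + 1) hi h1).2 (Or.inl rfl)⟩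
  · exact ⟨g (i - 1), (ga i (i - 1) hi (by omega)).2 (Or.inr (by omega))⟩

theorem cnh_q {V : Type} {G : SimpleGraph V} {p q : V} {n : ℕ} {x y : V} {R : Set V}
    (h : IP (ctr G p q) n x y R) (hn : 1 ≤ n) : q ∉ R := by
  intro hq
  obtain ⟨w', h'⟩ := cnh_nbr h hn hq
  exact ((ctr_adj p q q w').1 h').2.1 rfl

theorem cnh_congr {V : Type} {G : SimpleGraph V} {p q : V} {n : ℕ} {x y : V} {R : Set V}
    (h : IP (ctr G p q) n x y R) (hn : 1 ≤ n) (hp : p ∉ R) : IP G n x y R := by
  have hq := cnh_q h hn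
  refine h.congr fun a ha b hb => ?_
  rw [ctr_adj]
  constructor
  · intro hab
    exact ⟨hab.ne, fun e => hq (e ▸ ha), fun e => hq (e ▸ hb), Or.inl hab⟩
  · rintro ⟨_, _, _, h1 | h1 | h1⟩
    · exact h1
    · exact absurd (h1.1 ▸ ha) hp
    · exact absurd (h1.1 ▸ hb) hp

theorem cnh_path {V : Type} {G : SimpleGraph V} {p q u v : V} {n : ℕ} {R : Set V}
    (hE : EvP G p q) (h : IP G n u v R) (hp : p ∉ R) (hq : q ∉ R)
    (h1 : ∀ w ∈ R, G.Adj p w ↔ w = u) (h2 : ∀ w ∈ R, G.Adj q w ↔ w = v) : Even n := by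
  obtain ⟨hne, hna, hev⟩ := hE
  have a1 := h.cons hp h1
  have hq' : q ∉ insert p R := by
    intro hm
    rcases Set.mem_insert_iff.1 hm with e | e
    · exact hne e.symm
    · exact hq e
  have a2 := a1.snoc hq' (fun w hw => by
    rcases Set.mem_insert_iff.1 hw with e | e
    · subst e
      constructor
      · intro hh
        exact absurd hh.symm hna
      · intro hh
        exact absurd (hh ▸ h.right_mem) hp
    · exact h2 w e)
  have a3 := hev _ _ a2
  rw [Nat.even_add_one, Nat.even_add_one, not_not] at a3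
  exact a3

theorem cnh_main {V : Type} {G : SimpleGraph V} {p q u v : V} {n : ℕ} {R : Set V}
    (hG : NOH G) (hE : EvP G p q) (h : IP (ctr G p q) n u v R) (hn : 2 ≤ n) (hp : p ∉ R)
    (hu : (ctr G p q).Adj p u) (hv : (ctr G p q).Adj p v)
    (hw : ∀ w ∈ R, (ctr G p q).Adj p w → w = u ∨ w = v) : Even n := by
  have hq : q ∉ R := cnh_q h (by omega)
  have h' : IP G n u v R := cnh_congr h (by omega) hp
  have key : ∀ w ∈ R, (G.Adj p w ∨ G.Adj q w) → w = u ∨ w = v := by
    intro w hwR hadj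
    refine hw w hwR ((ctr_adj p q p w).2 ⟨fun e => hp (e ▸ hwR), hE.1, fun e => hq (e ▸ hwR), ?_⟩)
    rcases hadj with e | e
    · exact Or.inl e
    · exact Or.inr (Or.inl ⟨rfl, e⟩)
  have conv : ∀ w ∈ R, (ctr G p q).Adj p w → G.Adj p w ∨ G.Adj q w := by
    intro w hwR hadj
    obtain ⟨_, _, _, e | e | e⟩ := (ctr_adj p q p w).1 hadj
    · exact Or.inl e
    · exact Or.inr e.2
    · exact absurd (e.1 ▸ hwR) hp
  have hu' := conv u h'.left_mem hu
  have hv' := conv v h'.right_mem hv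
  by_cases p1 : G.Adj p u
  · by_cases p2 : G.Adj p v
    · exact hG n u v p R h' hn hp p1 p2 fun w hwR e => key w hwR (Or.inl e)
    · have q2 : G.Adj q v := hv'.resolve_left p2
      by_cases q1 : G.Adj q u
      · exact hG n u v q R h' hn hq q1 q2 fun w hwR e => key w hwR (Or.inr e)
      · refine cnh_path hE h' hp hq (fun w hwR => ⟨fun e => ?_, fun e => ?_⟩)
          (fun w hwR => ⟨fun e => ?_, fun e => ?_⟩)
        · exact (key w hwR (Or.inl e)).resolve_right fun e2 => p2 (e2 ▸ e)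
        · exact e ▸ p1
        · exact (key w hwR (Or.inr e)).resolve_left fun e2 => q1 (e2 ▸ e)
        · exact e ▸ q2
  · have q1 : G.Adj q u := hu'.resolve_left p1
    by_cases q2 : G.Adj q v
    · exact hG n u v q R h' hn hq q1 q2 fun w hwR e => key w hwR (Or.inr e)
    · have p2 : G.Adj p v := hv'.resolve_right q2
      refine cnh_path hE h'.rev hp hq (fun w hwR => ⟨fun e => ?_, fun e => ?_⟩)
          (fun w hwR => ⟨fun e => ?_, fun e => ?_⟩)
      · exact (key w hwR (Or.inl e)).resolve_left fun e2 => p1 (e2 ▸ e)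
      · exact e ▸ p2
      · exact (key w hwR (Or.inr e)).resolve_right fun e2 => q2 (e2 ▸ e)
      · exact e ▸ q1

theorem pf_CNH (hROT : T_ROT) : T_CNH := by
  intro V G p q hG hE n u v c R h hn hc hcu hcv hw
  by_cases e : c = p
  · subst e
    exact cnh_main hG hE h hn hc hcu hcv hw
  · by_cases hp : p ∈ R
    · obtain ⟨u', v', R', h', hp', _, hu', hv', hw'⟩ :=
        hROT V (ctr G p q) n u v c R h hn hc hcu hcv hw p hp
      exact cnh_main hG hE h' hn hp' hu' hv' hw'
    · have hq : q ∉ R := cnh_q h (by omega)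
      have hcq : c ≠ q := ((ctr_adj p q c u).1 hcu).2.1
      have conv : ∀ w ∈ R, (ctr G p q).Adj c w ↔ G.Adj c w := by
        intro w hwR
        rw [ctr_adj]
        constructor
        · rintro ⟨_, _, _, h1 | h1 | h1⟩
          · exact h1
          · exact absurd h1.1 e
          · exact absurd (h1.1 ▸ hwR) hp
        · intro h1
          exact ⟨h1.ne, hcq, fun e2 => hq (e2 ▸ hwR), Or.inl h1⟩
      exact hG n u v c R (cnh_congr h (by omega) hp) hn hc ((conv u h.left_mem).1 hcu)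
        ((conv v h.right_mem).1 hcv) fun w hwR h1 => hw w hwR ((conv w hwR).2 h1)

end Pool.Agent.H2.ER
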